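import Mathlib

/-!
Definitions for the near-linear heat smoothing project (MP_744226_an).
-/

namespace Pool.Agent.H58.Heat

open MeasureTheory ProbabilityTheory

/-- Euclidean space. -/
abbrev E (n : ℕ) : Type := EuclideanSpace ℝ (Fin n)

/-- Standard Gaussian measure. -/
noncomputable abbrev gm (n : ℕ) : Measure (E n) := stdGaussian (E n)

/-- Partial derivative. -/
noncomputable def pd {n : ℕ} (f : E n → ℝ) (i : Fin n) (x : E n) : ℝ :=
  fderiv ℝ f x (EuclideanSpace.single i 1)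

/-- Scalar product of two gradients. -/
noncomputable def gd {n : ℕ} (f u : E n → ℝ) (x : E n) : ℝ := ∑ i, pd f i x * pd u i x

/-- The number operator (minus the Ornstein-Uhlenbeck operator). -/
noncomputable def NN {n : ℕ} (f : E n → ℝ) (x : E n) : ℝ :=
  ∑ i, (x i * pd f i x - pd (pd f i) i x)

/-- Polynomial functions. -/
def IsPoly {n : ℕ} (f : E n → ℝ) : Prop :=
  ∃ q : MvPolynomial (Fin n) ℝ, ∀ x : E n, f x = MvPolynomial.eval (fun i => x i) q

/-- At most exponential growth. -/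
def EG {n : ℕ} {W : Type*} [NormedAddCommGroup W] (f : E n → W) : Prop :=
  ∃ C : ℝ, ∀ x, ‖f x‖ ≤ C * Real.exp (C * ‖x‖)

/-- Lipschitz functions. -/
def Lip {n : ℕ} (L : ℝ) (g : E n → ℝ) : Prop := ∀ x y, |g x - g y| ≤ L * ‖x - y‖

/-- Optimality conditions for the maximum likelihood problem over log-Lipschitz densities. -/
def KKT {n : ℕ} (ρ : Measure (E n)) (L : ℝ) (g : E n → ℝ) : Prop :=
  Lip L g ∧ ∫ x, Real.exp (g x) ∂gm n = 1 ∧
    ∀ h : E n → ℝ, Lip L h →
      ∫ x, (h x - g x) ∂ρ ≤ ∫ x, (h x - g x) * Real.exp (g x) ∂gm n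

/-- Set of points where the gradient of `g` is smaller than `L`. -/
def Un {n : ℕ} (L : ℝ) (g : E n → ℝ) : Set (E n) :=
  {x | DifferentiableAt ℝ g x ∧ ‖fderiv ℝ g x‖ < L}

end Pool.Agent.H58.Heat
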