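import Pool.Agent.H58.Heat.EGlib
import Pool.Agent.H12.Heat.A4
import Pool.Agent.H13.Heat.GBa
import Pool.Agent.H13.Heat.GBb
import Pool.Agent.H20.Heat.B1
import Pool.Agent.H20.Heat.B2
import Pool.Agent.H32.Heat.A3
import Pool.Agent.H91.Heat.C1
import Pool.Agent.H95.Heat.D0
import Pool.Agent.H95.Heat.D1
import Pool.Agent.H44.Heat.H

/-! All modules of project HEAT under common names. -/

namespace Pool.Agent.H58.Heat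

open MeasureTheory ProbabilityTheory

theorem GB1 {n : ℕ} {W : Type*} [NormedAddCommGroup W] (f : E n → W)
    (hm : AEStronglyMeasurable f (gm n)) (hf : EG f) : Integrable f (gm n) :=
  Pool.Agent.H13.Heat.GB1 f hm hf

/-- facts on polynomial functions -/
theorem GB5 {n : ℕ} (f : E n → ℝ) (hf : IsPoly f) :
    ContDiff ℝ ⊤ f ∧ EG f ∧ EG (fderiv ℝ f) ∧ (∀ i, IsPoly (pd f i)) ∧ IsPoly (NN f) :=
  Pool.Agent.H13.Heat.GB5 f hf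

/-- Lemma A -/
theorem A4 {n : ℕ} (F : E n → ℝ) (hF : ContDiff ℝ 1 F) (h0 : EG F) (h1 : EG (fderiv ℝ F))
    (hn : ∫ x, F x ^ 2 ∂gm n = 1) (L : ℝ) (hL : 0 < L) :
    ∃ g : E n → ℝ, ContDiff ℝ 1 g ∧ (∀ x, ‖fderiv ℝ g x‖ ≤ L) ∧
      ∫ x, Real.exp (g x) ∂gm n ≤ Real.exp 2 ∧
      1 - 4 * (∫ x, ‖fderiv ℝ F x‖ ^ 2 ∂gm n) / L ^ 2 ≤
        ∫ x, (if F x ^ 2 ≤ Real.exp (g x) then F x ^ 2 else 0) ∂gm n :=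
  Pool.Agent.H12.Heat.A4_of Pool.Agent.H32.Heat.A3 F hF h0 h1 hn L hL

theorem B1 {n : ℕ} (K : ℕ) (fk : ℕ → E n → ℝ) (hp : ∀ k, IsPoly (fk k))
    (hN : ∀ k x, NN (fk k) x = k * fk k x) (ψ : E n → ℝ) (hψ : ContDiff ℝ 1 ψ) (α : ℝ)
    (hα : ∀ x, ‖fderiv ℝ ψ x‖ ≤ α) (z : ℂ) (hz : 0 < z.re) :
    ∫ x, Real.exp (2 * ψ x) *
        ‖∑ k ∈ Finset.range K, Complex.exp (-(z * k)) * (fk k x : ℂ)‖ ^ 2 ∂gm n ≤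
      Real.exp (2 * (α ^ 2 * ‖z‖ ^ 2 / z.re)) *
        ∫ x, Real.exp (2 * ψ x) * (∑ k ∈ Finset.range K, fk k x) ^ 2 ∂gm n :=
  Pool.Agent.H20.Heat.B1 K fk hp hN ψ hψ α hα z hz

theorem B2 {n : ℕ} (K : ℕ) (fk : ℕ → E n → ℝ) (hp : ∀ k, IsPoly (fk k))
    (hN : ∀ k x, NN (fk k) x = k * fk k x) (ψ : E n → ℝ) (hψ : ContDiff ℝ 1 ψ) (α : ℝ)
    (hα : ∀ x, ‖fderiv ℝ ψ x‖ ≤ α) (u : E n → ℝ) (hu : ContDiff ℝ 1 u) (h0 : EG u)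
    (h1 : EG (fderiv ℝ u)) (τ : ℝ) (hτ : 0 ≤ τ) :
    |∫ x, (∑ k ∈ Finset.range K, (1 - Real.exp (-(τ * k))) * fk k x) * u x ∂gm n| ≤
      Real.sqrt τ * Real.exp (2 * (α ^ 2 * τ)) *
        Real.sqrt (∫ x, Real.exp (2 * ψ x) * (∑ k ∈ Finset.range K, fk k x) ^ 2 ∂gm n) *
        Real.sqrt (∫ x, Real.exp (-(2 * ψ x)) * ‖fderiv ℝ u x‖ ^ 2 ∂gm n) :=
  Pool.Agent.H20.Heat.B2 K fk hp hN ψ hψ α hα u hu h0 h1 τ hτ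

theorem C1 (d K : ℕ) (hd : 1 ≤ d) (a : ℕ → ℂ) (M α : ℝ) (hM : 0 ≤ M) (hα : 100 * α ^ 2 ≤ d)
    (h : ∀ z : ℂ, 0 < z.re → ‖∑ k ∈ Finset.Ico d K, a k * Complex.exp (-(z * k))‖ ≤
      M * Real.exp (α ^ 2 * ‖z‖ ^ 2 / z.re))
    (q : ℝ) (hq : 1 < q) (hq2 : q ≤ 2) (r τ : ℝ) (hr : 3 ≤ r * Real.cos (Real.pi / (2 * q)))
    (hτ : 0 < τ) (hτr : τ ≤ r) :
    ‖∑ k ∈ Finset.Ico d K, a k * Complex.exp (-((τ : ℂ) * k))‖ ≤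
      M * Real.exp (α ^ 2 * τ / Real.cos (Real.pi / (2 * q)) ^ 2 -
        d / 2 * τ * (τ / r) ^ (q - 1)) :=
  Pool.Agent.H91.Heat.C1 d K hd a M α hM hα h q hq hq2 r τ hr hτ hτr

theorem D0 {n : ℕ} (p : ℝ) (hp : 2 < p) (f : E n → ℝ) (hf : IsPoly f) :
    ContDiff ℝ 1 (fun x => |f x| ^ (p / 2)) ∧ EG (fun x => |f x| ^ (p / 2)) ∧
      EG (fderiv ℝ (fun x => |f x| ^ (p / 2))) ∧
      ∫ x, ‖fderiv ℝ (fun x => |f x| ^ (p / 2)) x‖ ^ 2 ∂gm n =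
        p ^ 2 / (4 * (p - 1)) * ∫ x, NN f x * (|f x| ^ (p - 2) * f x) ∂gm n :=
  Pool.Agent.H95.Heat.D0 p hp f hf

theorem D1 (p : ℝ) (hp : 2 < p) : ∃ C : ℝ, 0 < C ∧ ∀ (n : ℕ) (f : E n → ℝ), IsPoly f →
    (∫ x, |f x| ^ p ∂gm n = 1) → ∀ (L : ℝ), 0 < L → ∀ g : E n → ℝ, ContDiff ℝ 1 g →
    (∀ x, ‖fderiv ℝ g x‖ ≤ L) → ∫ x, Real.exp (g x) ∂gm n ≤ Real.exp 2 →
    (∫ x, Real.exp ((p - 2) / p * g x) * f x ^ 2 ∂gm n ≤ 8) ∧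
    ∃ u : E n → ℝ, ContDiff ℝ 1 u ∧ EG u ∧ EG (fderiv ℝ u) ∧
      (∫ x, (if |f x| ^ p ≤ Real.exp (g x) then |f x| ^ p else 0) ∂gm n ≤
        ∫ x, f x * u x ∂gm n) ∧
      (∫ x, Real.exp (-((p - 2) / p * g x)) * u x ^ 2 ∂gm n ≤ 2) ∧
      (∫ x, Real.exp (-((p - 2) / p * g x)) * ‖fderiv ℝ u x‖ ^ 2 ∂gm n ≤
        C * (∫ x, ‖fderiv ℝ (fun x => |f x| ^ (p / 2)) x‖ ^ 2 ∂gm n + L ^ 2)) :=
  Pool.Agent.H95.Heat.D1 p hp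

/-- decomposition of an element of the span into eigenfunctions -/
theorem H1 {n d : ℕ} (f : (Fin n → ℝ) → ℝ)
    (hf : f ∈ Submodule.span ℝ {g : (Fin n → ℝ) → ℝ | ∃ α : Fin n → ℕ, d ≤ ∑ i, α i ∧
          g = fun x => ∏ i, Polynomial.aeval (x i) (Polynomial.hermite (α i))}) :
    ∃ (K : ℕ) (fk : ℕ → E n → ℝ), (∀ k, IsPoly (fk k)) ∧ (∀ k x, NN (fk k) x = k * fk k x) ∧
      ∀ x : E n, f (fun i => x i) = ∑ k ∈ Finset.Ico d K, fk k x :=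
  Pool.Agent.H44.Heat.H1 f hf

/-- transfer of the operator and of the norms -/
theorem H2 {n : ℕ} (f : (Fin n → ℝ) → ℝ) (f' : E n → ℝ) (hf' : IsPoly f')
    (hff : ∀ x : E n, f (fun i => x i) = f' x) (p : ℝ) (hp : 1 < p) :
    eLpNorm f (ENNReal.ofReal p) (Measure.pi (fun _ : Fin n => gaussianReal 0 1)) =
        eLpNorm f' (ENNReal.ofReal p) (gm n) ∧
      eLpNorm (fun x => ∑ i, (x i * fderiv ℝ f x (Pi.single i 1)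
              - fderiv ℝ (fun y => fderiv ℝ f y (Pi.single i 1)) x (Pi.single i 1)))
            (ENNReal.ofReal p) (Measure.pi (fun _ : Fin n => gaussianReal 0 1)) =
        eLpNorm (NN f') (ENNReal.ofReal p) (gm n) :=
  Pool.Agent.H44.Heat.H2 f f' hf' hff p hp

end Pool.Agent.H58.Heat
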