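import Pool.Agent.H58.Heat.Defs

/-!
Closure properties of the growth class `EG` (at most exponential growth).
-/

namespace Pool.Agent.H58.Heat

open MeasureTheory ProbabilityTheory

variable {n : ℕ} {W W' : Type*} [NormedAddCommGroup W] [NormedAddCommGroup W']

lemma EG.nonneg_const {f : E n → W} (hf : EG f) :
    ∃ C : ℝ, 0 ≤ C ∧ ∀ x, ‖f x‖ ≤ C * Real.exp (C * ‖x‖) := by
  obtain ⟨C, hC⟩ := hf
  refine ⟨C, ?_, hC⟩
  have h := (norm_nonneg _).trans (hC 0)
  by_contra hneg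
  push Not at hneg
  have : C * Real.exp (C * ‖(0 : E n)‖) < 0 := mul_neg_of_neg_of_pos hneg (Real.exp_pos _)
  linarith

lemma EG.of_bound {f : E n → W} (a b : ℝ) (h : ∀ x, ‖f x‖ ≤ a * Real.exp (b * ‖x‖)) : EG f := by
  refine ⟨max a b ⊔ 0, fun x => (h x).trans ?_⟩
  have h1 : a ≤ max a b ⊔ 0 := (le_max_left _ _).trans (le_max_left _ _)
  have h2 : b ≤ max a b ⊔ 0 := (le_max_right _ _).trans (le_max_left _ _)
  have h3 : (0 : ℝ) ≤ max a b ⊔ 0 := le_max_right _ _
  have h4 : Real.exp (b * ‖x‖) ≤ Real.exp ((max a b ⊔ 0) * ‖x‖) :=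
    Real.exp_le_exp.mpr (mul_le_mul_of_nonneg_right h2 (norm_nonneg _))
  calc a * Real.exp (b * ‖x‖) ≤ (max a b ⊔ 0) * Real.exp (b * ‖x‖) :=
        mul_le_mul_of_nonneg_right h1 (Real.exp_pos _).le
    _ ≤ _ := mul_le_mul_of_nonneg_left h4 h3

lemma EG.mono {f : E n → W} {g : E n → W'} (hg : EG g) (h : ∀ x, ‖f x‖ ≤ ‖g x‖) : EG f := by
  obtain ⟨C, hC⟩ := hg
  exact ⟨C, fun x => (h x).trans (hC x)⟩

lemma EG.const (w : W) : EG (fun _ : E n => w) := by
  refine ⟨‖w‖, fun x => ?_⟩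
  have : (1 : ℝ) ≤ Real.exp (‖w‖ * ‖x‖) := Real.one_le_exp (by positivity)
  calc ‖w‖ = ‖w‖ * 1 := (mul_one _).symm
    _ ≤ _ := mul_le_mul_of_nonneg_left this (norm_nonneg _)

lemma EG.add {f g : E n → W} (hf : EG f) (hg : EG g) : EG (fun x => f x + g x) := by
  obtain ⟨C, hC0, hC⟩ := hf.nonneg_const
  obtain ⟨D, hD0, hD⟩ := hg.nonneg_const
  refine ⟨C + D, fun x => (norm_add_le _ _).trans ?_⟩
  have h1 : Real.exp (C * ‖x‖) ≤ Real.exp ((C + D) * ‖x‖) := by
    apply Real.exp_le_exp.mpr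
    apply mul_le_mul_of_nonneg_right _ (norm_nonneg _)
    linarith
  have h2 : Real.exp (D * ‖x‖) ≤ Real.exp ((C + D) * ‖x‖) := by
    apply Real.exp_le_exp.mpr
    apply mul_le_mul_of_nonneg_right _ (norm_nonneg _)
    linarith
  have h3 := (hC x).trans (mul_le_mul_of_nonneg_left h1 hC0)
  have h4 := (hD x).trans (mul_le_mul_of_nonneg_left h2 hD0)
  linarith

lemma EG.neg {f : E n → W} (hf : EG f) : EG (fun x => - f x) :=
  hf.mono fun x => by rw [norm_neg]

lemma EG.sub {f g : E n → W} (hf : EG f) (hg : EG g) : EG (fun x => f x - g x) := by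
  have := hf.add hg.neg
  exact this.mono fun x => by rw [sub_eq_add_neg]

lemma EG.norm {f : E n → W} (hf : EG f) : EG (fun x => ‖f x‖) :=
  hf.mono fun x => by rw [norm_norm]

/-- product of norms -/
lemma EG.mul_norm {f : E n → W} {g : E n → W'} (hf : EG f) (hg : EG g) :
    EG (fun x => ‖f x‖ * ‖g x‖) := by
  obtain ⟨C, hC0, hC⟩ := hf.nonneg_const
  obtain ⟨D, hD0, hD⟩ := hg.nonneg_const
  refine EG.of_bound (C * D) (C + D) fun x => ?_
  rw [Real.norm_of_nonneg (by positivity)]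
  calc ‖f x‖ * ‖g x‖ ≤ (C * Real.exp (C * ‖x‖)) * (D * Real.exp (D * ‖x‖)) :=
        mul_le_mul (hC x) (hD x) (norm_nonneg _) (by positivity)
    _ = C * D * Real.exp ((C + D) * ‖x‖) := by
        rw [add_mul, Real.exp_add]; ring

lemma EG.mul {f g : E n → ℝ} (hf : EG f) (hg : EG g) : EG (fun x => f x * g x) :=
  (hf.mul_norm hg).mono fun x => by rw [norm_mul, norm_mul, norm_norm, norm_norm]

lemma EG.cmul {f g : E n → ℂ} (hf : EG f) (hg : EG g) : EG (fun x => f x * g x) :=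
  (hf.mul_norm hg).mono fun x => by rw [norm_mul, norm_mul, norm_norm, norm_norm]

lemma EG.smul [NormedSpace ℝ W] {f : E n → ℝ} {g : E n → W} (hf : EG f) (hg : EG g) :
    EG (fun x => f x • g x) :=
  (hf.mul_norm hg).mono fun x => by rw [norm_smul, norm_mul, norm_norm, norm_norm]

lemma EG.pow {f : E n → ℝ} (hf : EG f) (k : ℕ) : EG (fun x => f x ^ k) := by
  induction k with
  | zero => simpa using EG.const (n := n) (1 : ℝ)
  | succ k ih => simpa only [pow_succ] using ih.mul hf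

lemma EG.sum {ι : Type*} (s : Finset ι) {f : ι → E n → W} (hf : ∀ i ∈ s, EG (f i)) :
    EG (fun x => ∑ i ∈ s, f i x) := by
  classical
  induction s using Finset.induction_on with
  | empty => simpa using EG.const (n := n) (0 : W)
  | insert i s hi ih =>
    have h1 : EG (f i) := hf i (Finset.mem_insert_self _ _)
    have h2 := ih fun j hj => hf j (Finset.mem_insert_of_mem hj)
    simpa only [Finset.sum_insert hi] using h1.add h2

/-- exponential of a function of linear growth -/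
lemma EG.exp_of_linear {g : E n → ℝ} (a b : ℝ) (h : ∀ x, g x ≤ a + b * ‖x‖) :
    EG (fun x => Real.exp (g x)) := by
  refine EG.of_bound (Real.exp a) b fun x => ?_
  rw [Real.norm_of_nonneg (Real.exp_pos _).le, ← Real.exp_add]
  exact Real.exp_le_exp.mpr (h x)

lemma EG.id_norm : EG (fun x : E n => ‖x‖) := by
  refine EG.of_bound 1 1 fun x => ?_
  rw [norm_norm, one_mul, one_mul]
  have := Real.add_one_le_exp ‖x‖
  linarith

lemma Lip.bound {L : ℝ} {g : E n → ℝ} (hg : Lip L g) (x : E n) : |g x| ≤ |g 0| + L * ‖x‖ := by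
  have h := hg x 0
  rw [sub_zero] at h
  have := abs_sub_abs_le_abs_sub (g x) (g 0)
  linarith

lemma Lip.lipschitz {L : ℝ} (hL : 0 ≤ L) {g : E n → ℝ} (hg : Lip L g) :
    LipschitzWith L.toNNReal g := by
  refine LipschitzWith.of_dist_le_mul fun x y => ?_
  rw [Real.dist_eq, dist_eq_norm, Real.coe_toNNReal _ hL]
  exact hg x y

lemma Lip.continuous {L : ℝ} {g : E n → ℝ} (hg : Lip L g) : Continuous g := by
  have h : Lip (max L 0) g := fun x y =>
    (hg x y).trans (mul_le_mul_of_nonneg_right (le_max_left _ _) (norm_nonneg _))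
  exact (h.lipschitz (le_max_right _ _)).continuous

lemma Lip.eg {L : ℝ} {g : E n → ℝ} (hg : Lip L g) : EG g := by
  have h1 : EG (fun x : E n => |g 0| + L * ‖x‖) :=
    (EG.const _).add ((EG.const L).mul EG.id_norm)
  refine h1.mono fun x => ?_
  rw [Real.norm_eq_abs, Real.norm_eq_abs]
  exact (hg.bound x).trans (le_abs_self _)

lemma Lip.eg_exp {L : ℝ} {g : E n → ℝ} (hg : Lip L g) (θ : ℝ) :
    EG (fun x => Real.exp (θ * g x)) := by
  refine EG.exp_of_linear (|θ| * |g 0|) (|θ| * L) fun x => ?_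
  calc θ * g x ≤ |θ * g x| := le_abs_self _
    _ = |θ| * |g x| := abs_mul _ _
    _ ≤ |θ| * (|g 0| + L * ‖x‖) := mul_le_mul_of_nonneg_left (hg.bound x) (abs_nonneg _)
    _ = |θ| * |g 0| + |θ| * L * ‖x‖ := by ring

/-- a `C^1` function with bounded gradient is Lipschitz -/
lemma Lip.of_fderiv {L : ℝ} {g : E n → ℝ} (hg : ContDiff ℝ 1 g)
    (h : ∀ x, ‖fderiv ℝ g x‖ ≤ L) : Lip L g := by
  intro x y
  have := Convex.norm_image_sub_le_of_norm_fderiv_le (𝕜 := ℝ) (f := g) (C := L) (s := Set.univ)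
    (x := y) (y := x) (fun z _ => (hg.differentiable one_ne_zero).differentiableAt) (fun z _ => h z)
    convex_univ (Set.mem_univ _) (Set.mem_univ _)
  simpa using this

end Pool.Agent.H58.Heat
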