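import Pool.Agent.H58.Heat.All
import Pool.Agent.H58.Heat.EGlib

/-!
Assembly of the near-linear heat smoothing inequality.
-/

namespace Pool.Agent.H58.Heat

open MeasureTheory ProbabilityTheory

/-- numerical part: the sector parameter -/
lemma cos_lower (d : ℕ) (hd : 1 ≤ d) :
    let ε : ℝ := 1 / (1 + Real.log d)
    0 < ε ∧ ε ≤ 1 ∧ ε / 2 ≤ Real.cos (Real.pi / (2 * (1 + ε))) := by
  intro ε
  have hlog : 0 ≤ Real.log d := Real.log_nonneg (by exact_mod_cast hd)
  have h1 : 0 < 1 + Real.log d := by linarith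
  have hε : 0 < ε := by positivity
  have hε1 : ε ≤ 1 := by
    rw [div_le_one h1]; linarith
  refine ⟨hε, hε1, ?_⟩
  have h2 : Real.pi / (2 * (1 + ε)) = Real.pi / 2 - Real.pi / 2 * (ε / (1 + ε)) := by
    field_simp
    ring
  rw [h2, Real.cos_pi_div_two_sub]
  have h3 : 0 ≤ ε / (1 + ε) := by positivity
  have h4 : ε / (1 + ε) ≤ 1 := by
    rw [div_le_one (by positivity)]; linarith
  have h5 : 2 / Real.pi * (Real.pi / 2 * (ε / (1 + ε))) ≤
      Real.sin (Real.pi / 2 * (ε / (1 + ε))) := by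
    apply Real.mul_le_sin
    · positivity
    · calc Real.pi / 2 * (ε / (1 + ε)) ≤ Real.pi / 2 * 1 := by gcongr
        _ = Real.pi / 2 := by ring
  have h6 : 2 / Real.pi * (Real.pi / 2 * (ε / (1 + ε))) = ε / (1 + ε) := by
    field_simp
  rw [h6] at h5
  refine le_trans ?_ h5
  rw [div_le_div_iff₀ (by norm_num) (by positivity)]
  nlinarith

/-- choice of the radius and the resulting exponent -/
lemma sector_exp (d : ℕ) (hd : 1 ≤ d) (τ : ℝ) (hτ : τ = 150 / d) :
    let ε : ℝ := 1 / (1 + Real.log d)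
    let c : ℝ := Real.cos (Real.pi / (2 * (1 + ε)))
    let r : ℝ := max (3 / c) τ
    Real.exp (-2) ≤ (τ / r) ^ ((1 + ε) - 1) := by
  intro ε c r
  obtain ⟨hε, hε1, hc⟩ := cos_lower d hd
  change 0 < ε at hε
  change ε ≤ 1 at hε1
  change ε / 2 ≤ c at hc
  have hd0 : (0 : ℝ) < d := by exact_mod_cast hd
  have hd1 : (1 : ℝ) ≤ d := by exact_mod_cast hd
  have hlog : 0 ≤ Real.log d := Real.log_nonneg hd1
  have hτ0 : 0 < τ := by rw [hτ]; positivity
  have hc0 : 0 < c := lt_of_lt_of_le (by positivity) hc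
  have hr : 0 < r := lt_of_lt_of_le hτ0 (le_max_right _ _)
  have hx : 0 < τ / r := by positivity
  rw [Real.rpow_def_of_pos hx]
  apply Real.exp_le_exp.mpr
  have e1 : 1 + ε - 1 = ε := by ring
  rw [e1]
  -- lower bound for the logarithm
  have h1 : -(2 * Real.log d) ≤ Real.log (τ / r) := by
    have h2 : 1 / (d : ℝ) ^ 2 ≤ τ / r := by
      rcases le_total (3 / c) τ with h | h
      · have : r = τ := max_eq_right h
        rw [this, div_self hτ0.ne']
        rw [div_le_one (by positivity)]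
        nlinarith
      · have hr' : r = 3 / c := max_eq_left h
        rw [hr']
        have h3 : τ / (3 / c) = τ * c / 3 := by field_simp
        rw [h3]
        have h4 : τ * (ε / 2) / 3 ≤ τ * c / 3 := by gcongr
        refine le_trans ?_ h4
        have h5 : τ * (ε / 2) / 3 = 25 / (d * (1 + Real.log d)) := by
          rw [hτ]
          simp only [ε]
          field_simp
          norm_num
        rw [h5, div_le_div_iff₀ (by positivity) (by positivity)]
        have h6 : 1 + Real.log d ≤ d := by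
          have := Real.log_le_sub_one_of_pos hd0
          linarith
        nlinarith
    have h7 := Real.log_le_log (by positivity) h2
    rw [Real.log_div one_ne_zero (by positivity), Real.log_one, Real.log_pow] at h7
    push_cast at h7
    linarith
  have h8 : -(2 * Real.log d) * ε ≤ Real.log (τ / r) * ε := by gcongr
  refine le_trans ?_ h8
  have h9 : -(2 * Real.log d) * ε = -(2 * Real.log d) / (1 + Real.log d) := by
    simp only [ε]; ring
  rw [h9, le_div_iff₀ (by linarith)]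
  nlinarith

lemma gm_eg_int {n : ℕ} {W : Type*} [NormedAddCommGroup W] (f : E n → W)
    (hc : Continuous f) (hf : EG f) : Integrable f (gm n) :=
  GB1 f hc.aestronglyMeasurable hf

/-- Cauchy-Schwarz with a weight -/
lemma cs_weight {n : ℕ} (g : E n → ℝ) (hg : Continuous g) (hge : ∀ θ : ℝ, EG (fun x => Real.exp (θ * g x)))
    (a u : E n → ℝ) (ha : Continuous a) (hae : EG a) (hu : Continuous u) (hue : EG u) :
    |∫ x, a x * u x ∂gm n| ≤ Real.sqrt (∫ x, Real.exp (g x) * a x ^ 2 ∂gm n) *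
      Real.sqrt (∫ x, Real.exp (-(g x)) * u x ^ 2 ∂gm n) := by
  have e1 : EG (fun x => Real.exp (g x)) := by simpa using hge 1
  have e2 : EG (fun x => Real.exp (-(g x))) := by simpa using hge (-1)
  have e3 : EG (fun x => Real.exp (g x / 2)) := by
    have := hge (1 / 2)
    simpa [div_eq_inv_mul] using this
  have e4 : EG (fun x => Real.exp (-(g x / 2))) := by
    have := hge (-(1 / 2))
    simpa [div_eq_inv_mul] using this
  have hA : MemLp (fun x => Real.exp (g x / 2) * |a x|) 2 (gm n) := by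
    rw [memLp_two_iff_integrable_sq (by fun_prop)]
    refine gm_eg_int _ (by fun_prop) ?_
    exact (e3.mul (by simpa only [Real.norm_eq_abs] using hae.norm)).pow 2
  have hB : MemLp (fun x => Real.exp (-(g x / 2)) * |u x|) 2 (gm n) := by
    rw [memLp_two_iff_integrable_sq (by fun_prop)]
    refine gm_eg_int _ (by fun_prop) ?_
    exact (e4.mul (by simpa only [Real.norm_eq_abs] using hue.norm)).pow 2
  have h1 : |∫ x, a x * u x ∂gm n| ≤
      ∫ x, (Real.exp (g x / 2) * |a x|) * (Real.exp (-(g x / 2)) * |u x|) ∂gm n := by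
    refine (abs_integral_le_integral_abs).trans (le_of_eq ?_)
    congr 1
    funext x
    rw [abs_mul]
    have : Real.exp (g x / 2) * Real.exp (-(g x / 2)) = 1 := by
      rw [← Real.exp_add]; simp
    calc |a x| * |u x| = (Real.exp (g x / 2) * Real.exp (-(g x / 2))) * (|a x| * |u x|) := by
          rw [this, one_mul]
      _ = _ := by ring
  refine h1.trans ?_
  have h2 := integral_mul_le_Lp_mul_Lq_of_nonneg (μ := gm n) (p := 2) (q := 2)
    (f := fun x => Real.exp (g x / 2) * |a x|) (g := fun x => Real.exp (-(g x / 2)) * |u x|)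
    Real.HolderConjugate.two_two
    (Filter.Eventually.of_forall fun x => by positivity)
    (Filter.Eventually.of_forall fun x => by positivity) (by simpa using hA) (by simpa using hB)
  refine h2.trans (le_of_eq ?_)
  have e5 : ∀ x, (Real.exp (g x / 2) * |a x|) ^ (2 : ℝ) = Real.exp (g x) * a x ^ 2 := by
    intro x
    rw [Real.rpow_two, mul_pow, sq_abs, ← Real.exp_nat_mul]
    congr 2
    push_cast; ring
  have e6 : ∀ x, (Real.exp (-(g x / 2)) * |u x|) ^ (2 : ℝ) = Real.exp (-(g x)) * u x ^ 2 := by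
    intro x
    rw [Real.rpow_two, mul_pow, sq_abs, ← Real.exp_nat_mul]
    congr 2
    push_cast; ring
  simp_rw [e5, e6]
  rw [Real.sqrt_eq_rpow, Real.sqrt_eq_rpow]

/-- complex version of the weighted Cauchy-Schwarz inequality -/
lemma cs_weight_complex {n : ℕ} (g : E n → ℝ) (hg : Continuous g)
    (hge : ∀ θ : ℝ, EG (fun x => Real.exp (θ * g x)))
    (a : E n → ℂ) (u : E n → ℝ) (ha : Continuous a) (hae : EG a) (hu : Continuous u)
    (hue : EG u) :
    ‖∫ x, a x * (u x : ℂ) ∂gm n‖ ≤ Real.sqrt (∫ x, Real.exp (g x) * ‖a x‖ ^ 2 ∂gm n) *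
      Real.sqrt (∫ x, Real.exp (-(g x)) * u x ^ 2 ∂gm n) := by
  have h1 := cs_weight g hg hge (fun x => ‖a x‖) (fun x => |u x|) ha.norm hae.norm hu.abs
    (by simpa only [Real.norm_eq_abs] using hue.norm)
  refine (norm_integral_le_integral_norm _).trans ?_
  have e1 : ∀ x, ‖a x * (u x : ℂ)‖ = ‖a x‖ * |u x| := fun x => by
    rw [norm_mul, Complex.norm_real, Real.norm_eq_abs]
  simp_rw [e1]
  refine (le_abs_self _).trans (h1.trans (le_of_eq ?_))
  simp_rw [sq_abs]

/-- numerical lemma for the sector estimate -/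
lemma num_sector (d : ℕ) (hd : 1 ≤ d) (c1 : ℝ) (hc1 : 0 < c1) (hc2 : c1 ≤ 1 / 50) :
    let ε : ℝ := 1 / (1 + Real.log d)
    let τ : ℝ := 150 / d
    let c : ℝ := Real.cos (Real.pi / (2 * (1 + ε)))
    let r : ℝ := max (3 / c) τ
    let L : ℝ := Real.sqrt (c1 * d / (1 + Real.log d) ^ 2)
    4 * Real.exp ((L / 2) ^ 2 * τ / c ^ 2 - d / 2 * τ * (τ / r) ^ ((1 + ε) - 1)) ≤ 1 / 8 := by
  intro ε τ c r L
  obtain ⟨hε, hε1, hc⟩ := cos_lower d hd
  change 0 < ε at hε
  change ε ≤ 1 at hε1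
  change ε / 2 ≤ c at hc
  have hd0 : (0 : ℝ) < d := by exact_mod_cast hd
  have hd1 : (1 : ℝ) ≤ d := by exact_mod_cast hd
  have hlog : 0 ≤ Real.log d := Real.log_nonneg hd1
  have hl1 : 0 < 1 + Real.log d := by linarith
  have hτ0 : 0 < τ := by positivity
  have hc0 : 0 < c := lt_of_lt_of_le (by positivity) hc
  have hsec : Real.exp (-2) ≤ (τ / r) ^ ((1 + ε) - 1) := sector_exp d hd τ rfl
  have hL2 : L ^ 2 = c1 * d / (1 + Real.log d) ^ 2 := Real.sq_sqrt (by positivity)
  have h1 : (L / 2) ^ 2 * τ / c ^ 2 ≤ 3 := by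
    rw [div_le_iff₀ (by positivity)]
    have h2 : (ε / 2) ^ 2 ≤ c ^ 2 := by gcongr
    have h3 : 3 * (ε / 2) ^ 2 ≤ 3 * c ^ 2 := by linarith
    refine le_trans ?_ h3
    have h4 : (L / 2) ^ 2 * τ = c1 * 150 / (4 * (1 + Real.log d) ^ 2) := by
      rw [div_pow, hL2]
      simp only [τ]
      field_simp
      norm_num
    have h5 : 3 * (ε / 2) ^ 2 = 3 / (4 * (1 + Real.log d) ^ 2) := by
      simp only [ε]
      field_simp
      norm_num
    rw [h4, h5]
    gcongr
    linarith
  have h6 : 75 * Real.exp (-2) ≤ d / 2 * τ * (τ / r) ^ ((1 + ε) - 1) := by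
    have h7 : (d : ℝ) / 2 * τ = 75 := by
      simp only [τ]
      field_simp
      norm_num
    rw [h7]
    gcongr
  have he : (1 : ℝ) / 8 ≤ Real.exp (-2) := by
    rw [Real.exp_neg, ← one_div]
    have h8 : Real.exp 2 ≤ 8 := by
      have h9 : Real.exp 2 = Real.exp 1 ^ 2 := by rw [← Real.exp_nat_mul]; norm_num
      rw [h9]
      have := Real.exp_one_lt_d9
      have h10 := Real.exp_pos 1
      nlinarith
    exact one_div_le_one_div_of_le (Real.exp_pos _) h8
  have h11 : (L / 2) ^ 2 * τ / c ^ 2 - d / 2 * τ * (τ / r) ^ ((1 + ε) - 1) ≤ -5 := by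
    linarith
  have h12 : Real.exp ((L / 2) ^ 2 * τ / c ^ 2 - d / 2 * τ * (τ / r) ^ ((1 + ε) - 1)) ≤
      Real.exp (-5) := Real.exp_le_exp.mpr h11
  have h13 : Real.exp (-5) ≤ 1 / 32 := by
    rw [Real.exp_neg, ← one_div]
    apply one_div_le_one_div_of_le (by norm_num)
    have h9 : Real.exp 5 = Real.exp 1 ^ 5 := by rw [← Real.exp_nat_mul]; norm_num
    rw [h9]
    have h14 : (2 : ℝ) ≤ Real.exp 1 := by
      have := Real.add_one_le_exp (1 : ℝ)
      linarith
    calc (32 : ℝ) = 2 ^ 5 := by norm_num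
      _ ≤ _ := by gcongr
  linarith

/-- a zero extended family -/
lemma ext_family {n d K : ℕ} (fk : ℕ → E n → ℝ) (hp : ∀ k, IsPoly (fk k))
    (hN : ∀ k x, NN (fk k) x = k * fk k x) :
    ∃ fl : ℕ → E n → ℝ, (∀ k, IsPoly (fl k)) ∧ (∀ k x, NN (fl k) x = k * fl k x) ∧
      ∀ (c : ℕ → ℂ) (x : E n), ∑ k ∈ Finset.range K, c k * (fl k x : ℂ) =
        ∑ k ∈ Finset.Ico d K, c k * (fk k x : ℂ) := by
  refine ⟨fun k => if d ≤ k then fk k else fun _ => 0, ?_, ?_, ?_⟩
  · intro k
    by_cases h : d ≤ k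
    · simpa [h] using hp k
    · simp only [h, if_false]
      exact ⟨0, fun x => by simp⟩
  · intro k x
    by_cases h : d ≤ k
    · simpa [h] using hN k x
    · simp only [h, if_false]
      have h1 : ∀ i : Fin n, pd (fun _ : E n => (0 : ℝ)) i = fun _ => 0 := by
        intro i
        funext y
        simp [pd]
      simp [NN, h1]
  · intro c x
    have h1 : Finset.Ico d K = (Finset.range K).filter (fun k => d ≤ k) := by
      ext k
      simp [Finset.mem_Ico, and_comm]
    rw [h1, Finset.sum_filter]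
    refine Finset.sum_congr rfl fun k _ => ?_
    by_cases h : d ≤ k
    · simp [h]
    · simp [h]

lemma ext_real {n d K : ℕ} {fk fl : ℕ → E n → ℝ}
    (h : ∀ (c : ℕ → ℂ) (x : E n), ∑ k ∈ Finset.range K, c k * (fl k x : ℂ) =
        ∑ k ∈ Finset.Ico d K, c k * (fk k x : ℂ)) (c : ℕ → ℝ) (x : E n) :
    ∑ k ∈ Finset.range K, c k * fl k x = ∑ k ∈ Finset.Ico d K, c k * fk k x := by
  have := h (fun k => (c k : ℂ)) x
  exact_mod_cast this

/-- energy form of the main theorem -/
theorem D2' (p : ℝ) (hp : 2 < p) : ∃ c : ℝ, 0 < c ∧ ∀ d : ℕ, 1 ≤ d → ∀ (n K : ℕ)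
    (fk : ℕ → E n → ℝ), (∀ k, IsPoly (fk k)) → (∀ k x, NN (fk k) x = k * fk k x) →
    (∫ x, |∑ k ∈ Finset.Ico d K, fk k x| ^ p ∂gm n = 1) →
    c * d / (1 + Real.log d) ^ 2 ≤
      ∫ x, ‖fderiv ℝ (fun x => |∑ k ∈ Finset.Ico d K, fk k x| ^ (p / 2)) x‖ ^ 2 ∂gm n := by
  obtain ⟨C, hC, hD1⟩ := D1 p hp
  set c1 : ℝ := 1 / (50 + 10 ^ 7 * C) with hc1def
  have hc1 : 0 < c1 := by positivity
  have hc2 : c1 ≤ 1 / 50 := by
    rw [hc1def]
    apply one_div_le_one_div_of_le (by norm_num)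
    nlinarith
  have hc3 : C * c1 ≤ 1 / 10 ^ 7 := by
    rw [hc1def, mul_one_div, div_le_div_iff₀ (by positivity) (by positivity)]
    nlinarith
  refine ⟨c1 / 8, by positivity, ?_⟩
  intro d hd n K fk hpoly hN hnorm
  have hd0 : (0 : ℝ) < d := by exact_mod_cast hd
  have hd1 : (1 : ℝ) ≤ d := by exact_mod_cast hd
  have hlog : 0 ≤ Real.log d := Real.log_nonneg hd1
  have hl1 : 0 < 1 + Real.log d := by linarith
  have hl2 : (1 : ℝ) ≤ (1 + Real.log d) ^ 2 := by nlinarith
  set L : ℝ := Real.sqrt (c1 * d / (1 + Real.log d) ^ 2) with hLdef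
  have hL2 : L ^ 2 = c1 * d / (1 + Real.log d) ^ 2 := Real.sq_sqrt (by positivity)
  have hL0 : 0 < L := Real.sqrt_pos.mpr (by positivity)
  set f : E n → ℝ := fun x => ∑ k ∈ Finset.Ico d K, fk k x with hf
  set κ : ℝ := ∫ x, ‖fderiv ℝ (fun x => |f x| ^ (p / 2)) x‖ ^ 2 ∂gm n with hκ
  by_contra hcon
  push Not at hcon
  have hκL : κ < L ^ 2 / 8 := by
    rw [hL2]
    calc κ < c1 / 8 * d / (1 + Real.log d) ^ 2 := hcon
      _ = c1 * d / (1 + Real.log d) ^ 2 / 8 := by ring
  obtain ⟨fl, hlp, hlN, hlc⟩ := ext_family (d := d) (K := K) fk hpoly hN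
  have hfl : ∀ x, ∑ k ∈ Finset.range K, fl k x = f x := by
    intro x
    have := ext_real hlc (fun _ => 1) x
    simpa using this
  -- polynomiality of f
  have hfpoly : IsPoly f := by
    choose Q hQ using hpoly
    refine ⟨∑ k ∈ Finset.Ico d K, Q k, fun x => ?_⟩
    simp only [hf, map_sum]
    exact Finset.sum_congr rfl fun k _ => hQ k x
  obtain ⟨hFc, hFe, hFd, -⟩ := D0 p hp f hfpoly
  have hFsq : ∀ x, (|f x| ^ (p / 2)) ^ 2 = |f x| ^ p := by
    intro x
    rw [← Real.rpow_natCast, ← Real.rpow_mul (abs_nonneg _)]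
    congr 1
    push_cast
    ring
  have hn1 : ∫ x, (|f x| ^ (p / 2)) ^ 2 ∂gm n = 1 := by
    simp_rw [hFsq]; exact hnorm
  obtain ⟨g, hgc, hgL, hg2, hg3⟩ := A4 _ hFc hFe hFd hn1 L hL0
  simp_rw [hFsq] at hg3
  have hgLip : Lip L g := Lip.of_fderiv hgc hgL
  obtain ⟨hD1a, u, huc, hue, hud, hu1, hu2, hu3⟩ := hD1 n f hfpoly hnorm L hL0 g hgc hgL hg2
  -- lower bound for the pairing
  have hlow : 1 / 2 < ∫ x, f x * u x ∂gm n := by
    have h1 : 4 * κ / L ^ 2 < 1 / 2 := by
      rw [div_lt_iff₀ (by positivity)]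
      linarith
    have h2 : 1 - 4 * κ / L ^ 2 ≤ ∫ x, f x * u x ∂gm n := hg3.trans hu1
    linarith
  set θ : ℝ := (p - 2) / p with hθ
  have hθ0 : 0 < θ := by rw [hθ]; apply div_pos <;> linarith
  have hθ1 : θ ≤ 1 := by rw [hθ, div_le_one (by linarith)]; linarith
  -- the weight
  set ψ : E n → ℝ := fun x => θ * g x / 2 with hψ
  have hψ2 : ∀ x, 2 * ψ x = θ * g x := fun x => by rw [hψ]; ring
  have hψc : ContDiff ℝ 1 ψ := by
    rw [hψ]
    exact (contDiff_const.mul hgc).div_const 2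
  have hψL : ∀ x, ‖fderiv ℝ ψ x‖ ≤ L / 2 := by
    intro x
    have h1 : HasFDerivAt ψ ((θ / 2) • fderiv ℝ g x) x := by
      have h2 := ((hgc.differentiable one_ne_zero x).hasFDerivAt).const_mul (θ / 2)
      have h3 : ψ = fun y => θ / 2 * g y := by
        funext y
        rw [hψ]; ring
      rw [h3]
      exact h2
    rw [h1.fderiv, norm_smul, Real.norm_of_nonneg (by positivity)]
    calc θ / 2 * ‖fderiv ℝ g x‖ ≤ 1 / 2 * L :=
          mul_le_mul (by linarith) (hgL x) (norm_nonneg _) (by norm_num)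
      _ = L / 2 := by ring
  have hge : ∀ t : ℝ, EG (fun x => Real.exp (t * (θ * g x))) := by
    intro t
    have := hgLip.eg_exp (t * θ)
    simpa only [mul_assoc] using this
  have hgcont : Continuous (fun x => θ * g x) := continuous_const.mul hgc.continuous
  set τ : ℝ := 150 / d with hτ
  have hτ0 : 0 < τ := by positivity
  have hατ : (L / 2) ^ 2 * τ ≤ 1 := by
    have h1 : (L / 2) ^ 2 * τ = c1 * 150 / (4 * (1 + Real.log d) ^ 2) := by
      rw [div_pow, hL2, hτ]
      field_simp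
      norm_num
    rw [h1, div_le_one (by positivity)]
    nlinarith
  -- second part of the pairing
  have hB2 := B2 K fl hlp hlN ψ hψc (L / 2) hψL u huc hue hud τ hτ0.le
  have hsecond : |∫ x, (∑ k ∈ Finset.range K, (1 - Real.exp (-(τ * k))) * fl k x) * u x ∂gm n|
      ≤ 1 / 8 := by
    refine hB2.trans ?_
    simp_rw [hψ2, hfl]
    have h1 : Real.exp (2 * ((L / 2) ^ 2 * τ)) ≤ 8 := by
      have h2 : Real.exp (2 * ((L / 2) ^ 2 * τ)) ≤ Real.exp 2 := by
        apply Real.exp_le_exp.mpr; linarith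
      have h9 : Real.exp 2 = Real.exp 1 ^ 2 := by rw [← Real.exp_nat_mul]; norm_num
      have h10 := Real.exp_one_lt_d9
      have h11 := Real.exp_pos 1
      rw [h9] at h2
      nlinarith
    have h3 : Real.sqrt (∫ x, Real.exp (θ * g x) * f x ^ 2 ∂gm n) ≤ Real.sqrt 8 :=
      Real.sqrt_le_sqrt hD1a
    have h4 : Real.sqrt (∫ x, Real.exp (-(θ * g x)) * ‖fderiv ℝ u x‖ ^ 2 ∂gm n) ≤
        Real.sqrt (C * (2 * (c1 * d))) := by
      apply Real.sqrt_le_sqrt
      refine hu3.trans ?_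
      have h5 : L ^ 2 ≤ c1 * d := by
        rw [hL2]
        exact div_le_self (by positivity) hl2
      have h6 : κ + L ^ 2 ≤ 2 * (c1 * d) := by nlinarith
      exact mul_le_mul_of_nonneg_left h6 hC.le
    have h7 : Real.sqrt τ * 8 * Real.sqrt 8 * Real.sqrt (C * (2 * (c1 * d))) ≤ 1 / 8 := by
      have h8 : Real.sqrt τ * Real.sqrt 8 * Real.sqrt (C * (2 * (c1 * d))) =
          Real.sqrt (τ * 8 * (C * (2 * (c1 * d)))) := by
        rw [← Real.sqrt_mul (by positivity), ← Real.sqrt_mul (by positivity)]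
      have h9 : τ * 8 * (C * (2 * (c1 * d))) = 2400 * (C * c1) := by
        rw [hτ]
        field_simp
        norm_num
      have h10 : Real.sqrt (τ * 8 * (C * (2 * (c1 * d)))) ≤ 1 / 64 := by
        rw [h9]
        apply Real.sqrt_le_iff.mpr
        constructor
        · norm_num
        · calc 2400 * (C * c1) ≤ 2400 * (1 / 10 ^ 7) := by gcongr
            _ ≤ (1 / 64) ^ 2 := by norm_num
      calc Real.sqrt τ * 8 * Real.sqrt 8 * Real.sqrt (C * (2 * (c1 * d)))
          = 8 * (Real.sqrt τ * Real.sqrt 8 * Real.sqrt (C * (2 * (c1 * d)))) := by ring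
        _ ≤ 8 * (1 / 64) := by rw [h8]; gcongr
        _ = 1 / 8 := by norm_num
    calc Real.sqrt τ * Real.exp (2 * ((L / 2) ^ 2 * τ)) *
          Real.sqrt (∫ x, Real.exp (θ * g x) * f x ^ 2 ∂gm n) *
          Real.sqrt (∫ x, Real.exp (-(θ * g x)) * ‖fderiv ℝ u x‖ ^ 2 ∂gm n)
        ≤ Real.sqrt τ * 8 * Real.sqrt 8 * Real.sqrt (C * (2 * (c1 * d))) := by gcongr
      _ ≤ 1 / 8 := h7
  -- continuity and growth facts
  have hfkc : ∀ k, Continuous (fk k) := fun k => (GB5 (fk k) (hpoly k)).1.continuous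
  have hfke : ∀ k, EG (fk k) := fun k => (GB5 (fk k) (hpoly k)).2.1
  have hflc : ∀ k, Continuous (fl k) := fun k => (GB5 (fl k) (hlp k)).1.continuous
  have hfle : ∀ k, EG (fl k) := fun k => (GB5 (fl k) (hlp k)).2.1
  -- the analytic function
  have hΦ : ∀ z : ℂ, ∑ k ∈ Finset.Ico d K, (((∫ x, fk k x * u x ∂gm n : ℝ)) : ℂ) *
      Complex.exp (-(z * k)) =
      ∫ x, (∑ k ∈ Finset.range K, Complex.exp (-(z * k)) * (fl k x : ℂ)) * (u x : ℂ) ∂gm n := by
    intro z
    simp_rw [hlc (fun k => Complex.exp (-(z * k))), Finset.sum_mul]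
    rw [integral_finsetSum]
    · refine Finset.sum_congr rfl fun k _ => ?_
      rw [← integral_complex_ofReal, ← integral_mul_const]
      congr 1
      funext x
      push_cast
      ring
    · intro k _
      refine gm_eg_int _ ?_ ?_
      · exact (continuous_const.mul (Complex.continuous_ofReal.comp (hfkc k))).mul
          (Complex.continuous_ofReal.comp huc.continuous)
      · have e1 : EG (fun x => (fk k x : ℂ)) := (hfke k).mono fun x => by
          rw [Complex.norm_real]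
        have e2 : EG (fun x => (u x : ℂ)) := hue.mono fun x => by rw [Complex.norm_real]
        exact ((EG.const _).cmul e1).cmul e2
  have hbound : ∀ z : ℂ, 0 < z.re →
      ‖∑ k ∈ Finset.Ico d K, (((∫ x, fk k x * u x ∂gm n : ℝ)) : ℂ) * Complex.exp (-(z * k))‖ ≤
      4 * Real.exp ((L / 2) ^ 2 * ‖z‖ ^ 2 / z.re) := by
    intro z hz
    rw [hΦ z]
    have hac : Continuous (fun x : E n =>
        ∑ k ∈ Finset.range K, Complex.exp (-(z * k)) * (fl k x : ℂ)) :=
      continuous_finsetSum _ fun k _ =>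
        continuous_const.mul (Complex.continuous_ofReal.comp (hflc k))
    have hae : EG (fun x : E n =>
        ∑ k ∈ Finset.range K, Complex.exp (-(z * k)) * (fl k x : ℂ)) := by
      refine EG.sum _ fun k _ => (EG.const _).cmul ?_
      exact (hfle k).mono fun x => by rw [Complex.norm_real]
    refine (cs_weight_complex (fun x => θ * g x) hgcont hge _ u hac hae huc.continuous
      hue).trans ?_
    have h1 := B1 K fl hlp hlN ψ hψc (L / 2) hψL z hz
    simp_rw [hψ2, hfl] at h1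
    have h2 : Real.sqrt (∫ x, Real.exp (θ * g x) *
        ‖∑ k ∈ Finset.range K, Complex.exp (-(z * k)) * (fl k x : ℂ)‖ ^ 2 ∂gm n) ≤
        Real.exp ((L / 2) ^ 2 * ‖z‖ ^ 2 / z.re) * Real.sqrt 8 := by
      apply Real.sqrt_le_iff.mpr
      constructor
      · positivity
      · refine h1.trans ?_
        rw [mul_pow, Real.sq_sqrt (by norm_num), ← Real.exp_nat_mul]
        push_cast
        gcongr
    have h3 : Real.sqrt (∫ x, Real.exp (-(θ * g x)) * u x ^ 2 ∂gm n) ≤ Real.sqrt 2 :=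
      Real.sqrt_le_sqrt hu2
    have h4 : Real.sqrt 8 * Real.sqrt 2 = 4 := by
      rw [← Real.sqrt_mul (by norm_num)]
      rw [show (8 : ℝ) * 2 = 4 ^ 2 by norm_num]
      exact Real.sqrt_sq (by norm_num)
    calc _ ≤ (Real.exp ((L / 2) ^ 2 * ‖z‖ ^ 2 / z.re) * Real.sqrt 8) * Real.sqrt 2 := by gcongr
      _ = Real.exp ((L / 2) ^ 2 * ‖z‖ ^ 2 / z.re) * (Real.sqrt 8 * Real.sqrt 2) := by ring
      _ = 4 * Real.exp ((L / 2) ^ 2 * ‖z‖ ^ 2 / z.re) := by rw [h4]; ring
  have h100 : 100 * (L / 2) ^ 2 ≤ d := by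
    have h5 : L ^ 2 ≤ c1 * d := by
      rw [hL2]
      exact div_le_self (by positivity) hl2
    nlinarith
  obtain ⟨hε, hε1, hc⟩ := cos_lower d hd
  set ε : ℝ := 1 / (1 + Real.log d) with hεdef
  have hcpos : 0 < Real.cos (Real.pi / (2 * (1 + ε))) := lt_of_lt_of_le (by positivity) hc
  have hr3 : 3 ≤ max (3 / Real.cos (Real.pi / (2 * (1 + ε)))) τ *
      Real.cos (Real.pi / (2 * (1 + ε))) := by
    calc (3 : ℝ) = 3 / Real.cos (Real.pi / (2 * (1 + ε))) *
          Real.cos (Real.pi / (2 * (1 + ε))) := by field_simp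
      _ ≤ _ := by gcongr; exact le_max_left _ _
  have hfirst := C1 d K hd (fun k => (((∫ x, fk k x * u x ∂gm n : ℝ)) : ℂ)) 4 (L / 2)
    (by norm_num) h100 hbound (1 + ε) (by linarith) (by linarith)
    (max (3 / Real.cos (Real.pi / (2 * (1 + ε)))) τ) τ hr3 hτ0 (le_max_right _ _)
  have hnum := num_sector d hd c1 hc1 hc2
  have hfirst' : ‖∑ k ∈ Finset.Ico d K, (((∫ x, fk k x * u x ∂gm n : ℝ)) : ℂ) *
      Complex.exp (-((τ : ℂ) * k))‖ ≤ 1 / 8 := hfirst.trans hnum
  -- put the two parts together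
  have hsum : ∫ x, f x * u x ∂gm n =
      (∑ k ∈ Finset.Ico d K, (∫ x, fk k x * u x ∂gm n) * Real.exp (-(τ * k))) +
      ∫ x, (∑ k ∈ Finset.range K, (1 - Real.exp (-(τ * k))) * fl k x) * u x ∂gm n := by
    have h1 : ∑ k ∈ Finset.Ico d K, (∫ x, fk k x * u x ∂gm n) * Real.exp (-(τ * k)) =
        ∫ x, (∑ k ∈ Finset.range K, Real.exp (-(τ * k)) * fl k x) * u x ∂gm n := by
      simp_rw [ext_real hlc (fun k => Real.exp (-(τ * k))), Finset.sum_mul]
      rw [integral_finsetSum]
      · refine Finset.sum_congr rfl fun k _ => ?_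
        rw [← integral_mul_const]
        congr 1
        funext x
        ring
      · intro k _
        exact gm_eg_int _ ((continuous_const.mul (hfkc k)).mul huc.continuous)
          (((EG.const _).mul (hfke k)).mul hue)
    rw [h1, ← integral_add]
    · congr 1
      funext x
      rw [← hfl x, ← add_mul, ← Finset.sum_add_distrib]
      congr 1
      refine Finset.sum_congr rfl fun k _ => ?_
      ring
    · exact gm_eg_int _ ((continuous_finsetSum _ fun k _ =>
        (continuous_const.mul (hflc k))).mul huc.continuous)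
        ((EG.sum _ fun k _ => ((EG.const _).mul (hfle k))).mul hue)
    · exact gm_eg_int _ ((continuous_finsetSum _ fun k _ =>
        (continuous_const.mul (hflc k))).mul huc.continuous)
        ((EG.sum _ fun k _ => ((EG.const _).mul (hfle k))).mul hue)
  have hre : |∑ k ∈ Finset.Ico d K, (∫ x, fk k x * u x ∂gm n) * Real.exp (-(τ * k))| ≤ 1 / 8 := by
    have h1 : ((∑ k ∈ Finset.Ico d K, (∫ x, fk k x * u x ∂gm n) * Real.exp (-(τ * k)) : ℝ) : ℂ) =
        ∑ k ∈ Finset.Ico d K, (((∫ x, fk k x * u x ∂gm n : ℝ)) : ℂ) *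
          Complex.exp (-((τ : ℂ) * k)) := by
      push_cast
      rfl
    rw [← Real.norm_eq_abs, ← Complex.norm_real, h1]
    exact hfirst'
  have h1 := (le_abs_self _).trans hre
  have h2 := (le_abs_self _).trans hsecond
  rw [hsum] at hlow
  linarith

end Pool.Agent.H58.Heat
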