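import Pool.Agent.H58.Heat.D2

/-!
Transfer to the product Gaussian measure: final form of the inequality.
-/

namespace Pool.Agent.H58.Heat

open MeasureTheory ProbabilityTheory

lemma IsPoly.cmul {n : ℕ} {f : E n → ℝ} (hf : IsPoly f) (c : ℝ) : IsPoly (fun x => c * f x) := by
  obtain ⟨q, hq⟩ := hf
  exact ⟨MvPolynomial.C c * q, fun x => by simp [hq x]⟩

lemma IsPoly.diff {n : ℕ} {f : E n → ℝ} (hf : IsPoly f) : Differentiable ℝ f :=
  (GB5 f hf).1.differentiable (by simp)

lemma pd_cmul {n : ℕ} {f : E n → ℝ} (hf : Differentiable ℝ f) (c : ℝ) (i : Fin n) :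
    pd (fun x => c * f x) i = fun x => c * pd f i x := by
  funext x
  unfold pd
  have h : HasFDerivAt (fun x => c * f x) (c • fderiv ℝ f x) x :=
    ((hf x).hasFDerivAt).const_mul c
  rw [h.fderiv]
  simp

lemma NN_cmul {n : ℕ} {f : E n → ℝ} (hf : IsPoly f) (c : ℝ) (x : E n) :
    NN (fun x => c * f x) x = c * NN f x := by
  unfold NN
  rw [Finset.mul_sum]
  refine Finset.sum_congr rfl fun i _ => ?_
  rw [pd_cmul hf.diff, pd_cmul ((GB5 f hf).2.2.2.1 i).diff]
  ring

/-- eLpNorm as a real power for functions of class EG -/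
lemma eLpNorm_eg {n : ℕ} (f : E n → ℝ) (hc : Continuous f) (he : EG f) (p : ℝ) (hp : 0 < p) :
    eLpNorm f (ENNReal.ofReal p) (gm n) = ENNReal.ofReal ((∫ x, |f x| ^ p ∂gm n) ^ (1 / p)) := by
  have h1 : Integrable (fun x => |f x| ^ p) (gm n) := by
    refine gm_eg_int _ (hc.abs.rpow_const fun x => Or.inr hp.le) ?_
    obtain ⟨C, hC0, hC⟩ := he.nonneg_const
    refine EG.of_bound (C ^ p) (C * p) fun x => ?_
    rw [Real.norm_of_nonneg (by positivity)]
    calc |f x| ^ p ≤ (C * Real.exp (C * ‖x‖)) ^ p := by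
          gcongr
          exact hC x
      _ = C ^ p * Real.exp (C * p * ‖x‖) := by
          rw [Real.mul_rpow hC0 (Real.exp_pos _).le, ← Real.exp_mul]
          congr 2
          ring
  rw [eLpNorm_eq_lintegral_rpow_enorm_toReal (by simpa using hp) ENNReal.ofReal_ne_top,
    ENNReal.toReal_ofReal hp.le]
  have h2 : ∀ x, ‖f x‖ₑ ^ p = ENNReal.ofReal (|f x| ^ p) := by
    intro x
    rw [← ofReal_norm_eq_enorm, ENNReal.ofReal_rpow_of_nonneg (norm_nonneg _) hp.le,
      Real.norm_eq_abs]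
  simp_rw [h2]
  rw [← ofReal_integral_eq_lintegral_ofReal h1
    (Filter.Eventually.of_forall fun x => by positivity)]
  rw [ENNReal.ofReal_rpow_of_nonneg (integral_nonneg fun x => by positivity) (by positivity)]

/-- the inequality on Euclidean space -/
theorem main_E (p : ℝ) (hp : 2 < p) : ∃ c : ℝ, 0 < c ∧ ∀ d : ℕ, 1 ≤ d → ∀ (n K : ℕ)
    (fk : ℕ → E n → ℝ), (∀ k, IsPoly (fk k)) → (∀ k x, NN (fk k) x = k * fk k x) →
    c * d / (1 + Real.log d) ^ 2 *
      (∫ x, |∑ k ∈ Finset.Ico d K, fk k x| ^ p ∂gm n) ^ (1 / p) ≤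
      (∫ x, |NN (fun x => ∑ k ∈ Finset.Ico d K, fk k x) x| ^ p ∂gm n) ^ (1 / p) := by
  obtain ⟨c, hc, hD2⟩ := D2' p hp
  have hp0 : 0 < p := by linarith
  have hp1 : 0 < p - 1 := by linarith
  refine ⟨4 * (p - 1) / p ^ 2 * c, by positivity, ?_⟩
  intro d hd n K fk hpoly hN
  set f : E n → ℝ := fun x => ∑ k ∈ Finset.Ico d K, fk k x with hf
  have hfpoly : IsPoly f := by
    choose Q hQ using hpoly
    refine ⟨∑ k ∈ Finset.Ico d K, Q k, fun x => ?_⟩
    simp only [hf, map_sum]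
    exact Finset.sum_congr rfl fun k _ => hQ k x
  have hfc : Continuous f := (GB5 f hfpoly).1.continuous
  have hfe : EG f := (GB5 f hfpoly).2.1
  have hNpoly : IsPoly (NN f) := (GB5 f hfpoly).2.2.2.2
  have hNc : Continuous (NN f) := (GB5 _ hNpoly).1.continuous
  have hNe : EG (NN f) := (GB5 _ hNpoly).2.1
  set I : ℝ := ∫ x, |f x| ^ p ∂gm n with hI
  have hI0 : 0 ≤ I := integral_nonneg fun x => by positivity
  have hJ0 : 0 ≤ (∫ x, |NN f x| ^ p ∂gm n) ^ (1 / p) := by
    have : 0 ≤ ∫ x, |NN f x| ^ p ∂gm n := integral_nonneg fun x => by positivity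
    positivity
  rcases hI0.eq_or_lt with hI1 | hI1
  · rw [← hI1, Real.zero_rpow (by positivity), mul_zero]
    exact hJ0
  -- normalisation
  set s : ℝ := I ^ (-(1 / p)) with hs
  have hs0 : 0 < s := Real.rpow_pos_of_pos hI1 _
  have hsp : s ^ p = I⁻¹ := by
    rw [hs, ← Real.rpow_mul hI1.le]
    have : -(1 / p) * p = -1 := by field_simp
    rw [this, Real.rpow_neg_one]
  set h : E n → ℝ := fun x => s * f x with hh
  have hhsum : ∀ x, ∑ k ∈ Finset.Ico d K, s * fk k x = h x := by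
    intro x
    simp only [hh, hf, Finset.mul_sum]
  have hhpoly : IsPoly h := hfpoly.cmul s
  have hhnorm : ∫ x, |h x| ^ p ∂gm n = 1 := by
    have h1 : ∀ x, |h x| ^ p = I⁻¹ * |f x| ^ p := by
      intro x
      simp only [hh]
      rw [abs_mul, abs_of_pos hs0, Real.mul_rpow hs0.le (abs_nonneg _), hsp]
    simp_rw [h1]
    rw [integral_const_mul, ← hI, inv_mul_cancel₀ hI1.ne']
  have hD := hD2 d hd n K (fun k x => s * fk k x) (fun k => (hpoly k).cmul s)
    (fun k x => by rw [NN_cmul (hpoly k), hN]; ring) (by simp_rw [hhsum]; exact hhnorm)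
  simp_rw [hhsum] at hD
  obtain ⟨-, -, -, hD0⟩ := D0 p hp h hhpoly
  rw [hD0] at hD
  -- Hoelder
  have hconj : Real.HolderConjugate p (p / (p - 1)) := by
    have := Real.HolderConjugate.conjExponent (p := p) (by linarith)
    simpa [Real.conjExponent] using this
  have hhc : Continuous h := (GB5 h hhpoly).1.continuous
  have hhe : EG h := (GB5 h hhpoly).2.1
  have hNhpoly : IsPoly (NN h) := (GB5 h hhpoly).2.2.2.2
  have hNhc : Continuous (NN h) := (GB5 _ hNhpoly).1.continuous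
  have hNhe : EG (NN h) := (GB5 _ hNhpoly).2.1
  have hrpow : ∀ (w : E n → ℝ), Continuous w → EG w → ∀ q : ℝ, 0 < q →
      Continuous (fun x => |w x| ^ q) ∧ EG (fun x => |w x| ^ q) := by
    intro w hw hwe q hq
    refine ⟨hw.abs.rpow_const fun x => Or.inr hq.le, ?_⟩
    obtain ⟨C, hC0, hC⟩ := hwe.nonneg_const
    refine EG.of_bound (C ^ q) (C * q) fun x => ?_
    rw [Real.norm_of_nonneg (by positivity)]
    calc |w x| ^ q ≤ (C * Real.exp (C * ‖x‖)) ^ q := by
          gcongr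
          exact hC x
      _ = C ^ q * Real.exp (C * q * ‖x‖) := by
          rw [Real.mul_rpow hC0 (Real.exp_pos _).le, ← Real.exp_mul]
          congr 2
          ring
  have hH : ∫ x, NN h x * (|h x| ^ (p - 2) * h x) ∂gm n ≤
      (∫ x, |NN h x| ^ p ∂gm n) ^ (1 / p) := by
    have h1 : ∀ x, NN h x * (|h x| ^ (p - 2) * h x) ≤ |NN h x| * |h x| ^ (p - 1) := by
      intro x
      have h2 : |h x| ^ (p - 2) * |h x| = |h x| ^ (p - 1) := by
        rcases (abs_nonneg (h x)).eq_or_lt with h3 | h3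
        · rw [← h3, mul_zero, Real.zero_rpow (by linarith)]
        · nth_rewrite 2 [← Real.rpow_one |h x|]
          rw [← Real.rpow_add h3]
          congr 1
          ring
      calc NN h x * (|h x| ^ (p - 2) * h x) ≤ |NN h x * (|h x| ^ (p - 2) * h x)| := le_abs_self _
        _ = |NN h x| * (|h x| ^ (p - 2) * |h x|) := by
            rw [abs_mul, abs_mul, abs_of_nonneg (Real.rpow_nonneg (abs_nonneg _) _)]
        _ = _ := by rw [h2]
    have hc2 : Continuous (fun x => |h x| ^ (p - 2)) :=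
      hhc.abs.rpow_const fun x => Or.inr (by linarith)
    have h5 : ∫ x, NN h x * (|h x| ^ (p - 2) * h x) ∂gm n ≤
        ∫ x, |NN h x| * |h x| ^ (p - 1) ∂gm n := by
      apply integral_mono
      · refine gm_eg_int _ (hNhc.mul (hc2.mul hhc)) ?_
        exact hNhe.mul ((hrpow h hhc hhe (p - 2) (by linarith)).2.mul hhe)
      · refine gm_eg_int _ (hNhc.abs.mul (hrpow h hhc hhe (p - 1) hp1).1) ?_
        exact (by simpa only [Real.norm_eq_abs] using hNhe.norm :
          EG (fun x => |NN h x|)).mul (hrpow h hhc hhe (p - 1) hp1).2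
      · exact h1
    refine h5.trans ?_
    have h6 := integral_mul_le_Lp_mul_Lq_of_nonneg (μ := gm n) (p := p) (q := p / (p - 1))
      (f := fun x => |NN h x|) (g := fun x => |h x| ^ (p - 1)) hconj
      (Filter.Eventually.of_forall fun x => abs_nonneg _)
      (Filter.Eventually.of_forall fun x => by positivity) ?_ ?_
    · refine h6.trans (le_of_eq ?_)
      have h7 : ∀ x, (|h x| ^ (p - 1)) ^ (p / (p - 1)) = |h x| ^ p := by
        intro x
        rw [← Real.rpow_mul (abs_nonneg _)]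
        congr 1
        field_simp
      simp_rw [h7]
      rw [hhnorm, Real.one_rpow, mul_one]
    · rw [← integrable_norm_rpow_iff (hNhc.abs.aestronglyMeasurable) (by simpa using hp0)
        ENNReal.ofReal_ne_top, ENNReal.toReal_ofReal hp0.le]
      simp_rw [Real.norm_eq_abs, abs_abs]
      exact gm_eg_int _ (hrpow _ hNhc hNhe p hp0).1 (hrpow _ hNhc hNhe p hp0).2
    · have hq0 : 0 < p / (p - 1) := by positivity
      rw [← integrable_norm_rpow_iff
        ((hrpow h hhc hhe (p - 1) hp1).1.aestronglyMeasurable) (by simpa using hq0)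
        ENNReal.ofReal_ne_top, ENNReal.toReal_ofReal hq0.le]
      have h7 : ∀ x, ‖|h x| ^ (p - 1)‖ ^ (p / (p - 1)) = |h x| ^ p := by
        intro x
        rw [Real.norm_of_nonneg (by positivity), ← Real.rpow_mul (abs_nonneg _)]
        congr 1
        field_simp
      simp_rw [h7]
      exact gm_eg_int _ (hrpow _ hhc hhe p hp0).1 (hrpow _ hhc hhe p hp0).2
  -- scaling of the right side
  have hscale : (∫ x, |NN h x| ^ p ∂gm n) ^ (1 / p) =
      s * (∫ x, |NN f x| ^ p ∂gm n) ^ (1 / p) := by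
    have h1 : ∀ x, |NN h x| ^ p = s ^ p * |NN f x| ^ p := by
      intro x
      simp only [hh]
      rw [NN_cmul hfpoly, abs_mul, abs_of_pos hs0, Real.mul_rpow hs0.le (abs_nonneg _)]
    simp_rw [h1]
    rw [integral_const_mul, Real.mul_rpow (by positivity)
      (integral_nonneg fun x => by positivity), ← Real.rpow_mul hs0.le]
    have : p * (1 / p) = 1 := by field_simp
    rw [this, Real.rpow_one]
  rw [hscale] at hH
  have hsI : s * I ^ (1 / p) = 1 := by
    rw [hs, ← Real.rpow_add hI1]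
    simp
  set J : ℝ := (∫ x, |NN f x| ^ p ∂gm n) ^ (1 / p) with hJ
  have h8 : c * d / (1 + Real.log d) ^ 2 ≤ p ^ 2 / (4 * (p - 1)) * (s * J) :=
    hD.trans (mul_le_mul_of_nonneg_left hH (by positivity))
  have h9 : 0 < I ^ (1 / p) := Real.rpow_pos_of_pos hI1 _
  calc 4 * (p - 1) / p ^ 2 * c * d / (1 + Real.log d) ^ 2 * I ^ (1 / p)
      = 4 * (p - 1) / p ^ 2 * (c * d / (1 + Real.log d) ^ 2) * I ^ (1 / p) := by ring
    _ ≤ 4 * (p - 1) / p ^ 2 * (p ^ 2 / (4 * (p - 1)) * (s * J)) * I ^ (1 / p) := by gcongr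
    _ = (s * I ^ (1 / p)) * J := by field_simp
    _ = J := by rw [hsI, one_mul]

/-- FINAL -/
theorem near_linear :
    ∀ p : ℝ, 2 < p → ∃ c : ℝ, 0 < c ∧ ∀ d : ℕ, 1 ≤ d → ∀ n : ℕ, ∀ f : (Fin n → ℝ) → ℝ,
      f ∈ Submodule.span ℝ {g : (Fin n → ℝ) → ℝ | ∃ α : Fin n → ℕ, d ≤ ∑ i, α i ∧
          g = fun x => ∏ i, Polynomial.aeval (x i) (Polynomial.hermite (α i))} →
      ENNReal.ofReal (c * (d : ℝ) / (1 + Real.log d) ^ 2) *
          eLpNorm f (ENNReal.ofReal p) (Measure.pi (fun _ : Fin n => gaussianReal 0 1))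
        ≤ eLpNorm
            (fun x => ∑ i, (x i * fderiv ℝ f x (Pi.single i 1)
              - fderiv ℝ (fun y => fderiv ℝ f y (Pi.single i 1)) x (Pi.single i 1)))
            (ENNReal.ofReal p) (Measure.pi (fun _ : Fin n => gaussianReal 0 1)) := by
  intro p hp
  obtain ⟨c, hc, hmain⟩ := main_E p hp
  refine ⟨c, hc, fun d hd n f hf => ?_⟩
  obtain ⟨K, fk, hpoly, hN, hfx⟩ := H1 f hf
  have hfpoly : IsPoly (fun x : E n => ∑ k ∈ Finset.Ico d K, fk k x) := by
    choose Q hQ using hpoly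
    refine ⟨∑ k ∈ Finset.Ico d K, Q k, fun x => ?_⟩
    simp only [map_sum]
    exact Finset.sum_congr rfl fun k _ => hQ k x
  obtain ⟨hn1, hn2⟩ := H2 f (fun x : E n => ∑ k ∈ Finset.Ico d K, fk k x) hfpoly hfx p
    (by linarith)
  rw [hn1, hn2]
  have hp0 : 0 < p := by linarith
  have hNpoly := (GB5 _ hfpoly).2.2.2.2
  rw [eLpNorm_eg _ (GB5 _ hfpoly).1.continuous (GB5 _ hfpoly).2.1 p hp0,
    eLpNorm_eg _ (GB5 _ hNpoly).1.continuous (GB5 _ hNpoly).2.1 p hp0]
  have hd1 : (1 : ℝ) ≤ d := by exact_mod_cast hd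
  have hlog : 0 ≤ Real.log d := Real.log_nonneg hd1
  rw [← ENNReal.ofReal_mul (by positivity)]
  exact ENNReal.ofReal_le_ofReal (hmain d hd n K fk hpoly hN)

end Pool.Agent.H58.Heat
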